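import Pool.Agent.Helper65.CG.Defs2
import Pool.Agent.Helper46.UB.Inv
import Pool.Agent.Helper88.UB.LabP

/-!
# Project UB, module G3: the entry theorem
-/

set_option autoImplicit false

namespace Pool.Agent.Helper65.CG

open scoped Classical
open Pool.Agent.Helper65.CliqueGame

variable {n q m : ℕ}

namespace H20

/-- the weight of `U` after the rounds `Rs` -/
noncomputable def st (β : Finset (Sym2 (Fin n)) → ℝ) (Rs : List (Finset (Sym2 (Fin n))))
    (U : Finset (Sym2 (Fin n))) : ℝ :=
  β U * (Rs.map (fun R => (1 + ((R ∩ U).card : ℝ)))).prod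

theorem st_cons (β : Finset (Sym2 (Fin n)) → ℝ) (R : Finset (Sym2 (Fin n)))
    (Rs : List (Finset (Sym2 (Fin n)))) (U : Finset (Sym2 (Fin n))) :
    st β (R :: Rs) U = st β Rs U * (1 + ((R ∩ U).card : ℝ)) := by
  unfold st
  rw [List.map_cons, List.prod_cons]
  ring

theorem prod_nonneg (Rs : List (Finset (Sym2 (Fin n)))) (U : Finset (Sym2 (Fin n))) :
    0 ≤ (Rs.map (fun R => (1 + ((R ∩ U).card : ℝ)))).prod := by
  induction Rs with
  | nil => simp
  | cons R Rs ih =>
    rw [List.map_cons, List.prod_cons]
    exact mul_nonneg (by positivity) ih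

theorem st_nonneg {β : Finset (Sym2 (Fin n)) → ℝ} (hβ : ∀ U, 0 ≤ β U)
    (Rs : List (Finset (Sym2 (Fin n)))) (U : Finset (Sym2 (Fin n))) : 0 ≤ st β Rs U :=
  mul_nonneg (hβ U) (prod_nonneg Rs U)

/-- the weights of the structures -/
noncomputable def mu (q : ℕ) (β : Finset (Sym2 (Fin n)) → ℝ) (Rs : List (Finset (Sym2 (Fin n))))
    (W : Finset (Fin n) → ℝ) : Finset (Sym2 (Fin n)) ⊕ Finset (Fin n) → ℝ
  | Sum.inl U => st β Rs U
  | Sum.inr A => if A.card = q then W A else 0

/-- the edge sets of the structures -/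
noncomputable def FS : Finset (Sym2 (Fin n)) ⊕ Finset (Fin n) → Finset (Sym2 (Fin n))
  | Sum.inl U => U
  | Sum.inr A => inn A

theorem mu_nonneg {β : Finset (Sym2 (Fin n)) → ℝ} (hβ : ∀ U, 0 ≤ β U)
    (Rs : List (Finset (Sym2 (Fin n)))) {W : Finset (Fin n) → ℝ} (hW : ∀ A, 0 ≤ W A)
    (s : Finset (Sym2 (Fin n)) ⊕ Finset (Fin n)) : 0 ≤ mu q β Rs W s := by
  rcases s with U | A
  · exact st_nonneg hβ Rs U
  · change 0 ≤ if A.card = q then W A else 0
    split_ifs
    · exact hW A
    · exact le_rfl

/-- the potential of the sets of edges -/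
noncomputable def PU (β : Finset (Sym2 (Fin n)) → ℝ) (Rs : List (Finset (Sym2 (Fin n))))
    (B : Finset (Sym2 (Fin n))) : ℝ := ∑ U, if Disjoint U B then st β Rs U else 0

/-- the potential of the `q`-sets -/
noncomputable def PA (q : ℕ) (W : Finset (Fin n) → ℝ) (B : Finset (Sym2 (Fin n))) : ℝ :=
  ∑ A, if Disjoint (inn A) B then (if A.card = q then W A else 0) else 0

theorem Phi_mu (β : Finset (Sym2 (Fin n)) → ℝ) (Rs : List (Finset (Sym2 (Fin n))))
    (W : Finset (Fin n) → ℝ) (B : Finset (Sym2 (Fin n))) :
    Phi (mu q β Rs W) FS B = PU β Rs B + PA q W B := by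
  unfold Phi PU PA
  rw [Fintype.sum_sum_type]
  rfl

theorem PU_nonneg {β : Finset (Sym2 (Fin n)) → ℝ} (hβ : ∀ U, 0 ≤ β U)
    (Rs : List (Finset (Sym2 (Fin n)))) (B : Finset (Sym2 (Fin n))) : 0 ≤ PU β Rs B :=
  Finset.sum_nonneg fun U _ => by
    split_ifs
    · exact st_nonneg hβ Rs U
    · exact le_rfl

theorem PA_nonneg {W : Finset (Fin n) → ℝ} (hW : ∀ A, 0 ≤ W A) (B : Finset (Sym2 (Fin n))) :
    0 ≤ PA q W B :=
  Finset.sum_nonneg fun U _ => by
    split_ifs
    · exact hW _
    · exact le_rfl
    · exact le_rfl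

/-- the entry weight -/
noncomputable def w0 (T n : ℕ) : ℝ := 1 / (((T : ℝ) + 1) * (n : ℝ) ^ 2)

/-- the invariant -/
def Inv (m q κ T : ℕ) (β : Finset (Sym2 (Fin n)) → ℝ) (Rs : List (Finset (Sym2 (Fin n))))
    (B : Finset (Sym2 (Fin n))) : Prop :=
  ∃ W : Finset (Fin n) → ℝ, (∀ A, 0 ≤ W A) ∧
    PU β Rs B + PA q W B + ((free (uni Rs) B).card : ℝ) * (T * w0 T n) ≤
      m + 1 + (n : ℝ) ^ 2 * (T * w0 T n) ∧
    ∀ A : Finset (Fin n), A.card = q → Disjoint (inn A) B → (inn A \ uni Rs).card ≤ κ →
      w0 T n * ((m : ℝ) + 1) ^ (((κ : ℝ) - m - ((inn A \ uni Rs).card : ℝ)) / m) ≤ W A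

theorem w0_pos {T : ℕ} (hn : 1 ≤ n) : 0 < w0 T n := by
  unfold w0
  have : (0 : ℝ) < n := by exact_mod_cast hn
  positivity

theorem nT_le {T : ℕ} (hn : 1 ≤ n) : (n : ℝ) ^ 2 * (T * w0 T n) ≤ 1 := by
  have h0 : (0 : ℝ) < n := by exact_mod_cast hn
  unfold w0
  have h1 : (n : ℝ) ^ 2 * (T * (1 / (((T : ℝ) + 1) * (n : ℝ) ^ 2))) = T / (T + 1) := by
    field_simp
  rw [h1, div_le_one (by positivity)]
  linarith

theorem free_anti {M M' B B' : Finset (Sym2 (Fin n))} (h : M ⊆ M') (h' : B ⊆ B') :
    free M' B' ⊆ free M B := by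
  unfold free
  exact Finset.sdiff_subset_sdiff (Finset.Subset.refl _) (Finset.union_subset_union h h')

theorem edges_card_le : (edges n).card ≤ n ^ 2 := by
  have h1 : edges n = inn (Finset.univ : Finset (Fin n)) := by
    ext e
    simp [edges, inn]
  rw [h1, card_inn, Finset.card_univ, Fintype.card_fin, Nat.choose_two_right]
  calc n * (n - 1) / 2 ≤ n * (n - 1) := Nat.div_le_self _ _
    _ ≤ n * n := Nat.mul_le_mul_left _ (Nat.sub_le _ _)
    _ = n ^ 2 := by ring

/-- `(m+1)^(h/m) ≤ 1 + h` -/
theorem rpow_le (hm : 1 ≤ m) {h : ℕ} (hh : h ≤ m) :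
    ((m : ℝ) + 1) ^ ((h : ℝ) / m) ≤ 1 + h := by
  rcases Nat.eq_zero_or_pos h with rfl | hpos
  · simp
  have hm0 : (0 : ℝ) < m := by exact_mod_cast hm
  have hh0 : (0 : ℝ) < h := by exact_mod_cast hpos
  have h1 : (1 : ℝ) ≤ m / h := by
    rw [le_div_iff₀ hh0, one_mul]
    exact_mod_cast hh
  have h2 := one_add_mul_self_le_rpow_one_add (s := (h : ℝ)) (by linarith) h1
  have h3 : 1 + (m : ℝ) / h * h = m + 1 := by
    field_simp
    ring
  rw [h3] at h2
  calc ((m : ℝ) + 1) ^ ((h : ℝ) / m) ≤ ((1 + (h : ℝ)) ^ ((m : ℝ) / h)) ^ ((h : ℝ) / m) :=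
        Real.rpow_le_rpow (by positivity) h2 (by positivity)
    _ = (1 + (h : ℝ)) ^ (((m : ℝ) / h) * ((h : ℝ) / m)) := by
        rw [Real.rpow_mul (by positivity)]
    _ = 1 + h := by
        rw [show ((m : ℝ) / h) * ((h : ℝ) / m) = 1 by field_simp, Real.rpow_one]

end H20

open H20 in
/-- Module G3, from the statements of G1 and G2. -/
theorem entry_of (hm : 1 ≤ m) (hn : 1 ≤ n) {κ T : ℕ} (β : Finset (Sym2 (Fin n)) → ℝ)
    (hβ : ∀ U, 0 ≤ β U) (hβ1 : ∑ U, β U ≤ 1)
    (hmain : ∀ ℓ : Sym2 (Fin n) → ℕ, Lab m ℓ → val β ℓ ≤ m + 3 → (near ℓ q κ).card ≤ T)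
    (hk : κ + m < q.choose 2)
    (hbig : ((m : ℝ) + 3) * ((T : ℝ) + 1) * (n : ℝ) ^ 2 <
      ((m : ℝ) + 1) ^ (((κ : ℝ) - m) / m))
    (inv : ∀ (Inv : List (Finset (Sym2 (Fin n))) → Finset (Sym2 (Fin n)) → Prop),
      (∀ R, R ⊆ edges n → R.card ≤ m → Inv [R] ∅) →
      (∀ Rs B, Inv Rs B → (∀ R ∈ Rs, R.card ≤ m) → Rs.Pairwise Disjoint →
        Disjoint (uni Rs) B → uni Rs ⊆ edges n → B ⊆ edges n → free (uni Rs) B ≠ ∅ →
        ∃ S, Legal m (uni Rs) B S ∧ Inv Rs (B ∪ S) ∧
          ∀ R, R ⊆ free (uni Rs) (B ∪ S) → R.card ≤ m → Inv (R :: Rs) (B ∪ S)) →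
      (∀ Rs B, Inv Rs B → (∀ R ∈ Rs, R.card ≤ m) → Rs.Pairwise Disjoint →
        Disjoint (uni Rs) B → uni Rs ⊆ edges n → B ⊆ edges n → ¬ HasClique q (uni Rs)) →
      ¬ MakerWins n m q true ∅ ∅)
    (lab : ∀ (Rs : List (Finset (Sym2 (Fin n)))) (B : Finset (Sym2 (Fin n))),
      (∀ R ∈ Rs, R.card ≤ m) → Rs.Pairwise Disjoint → Disjoint (uni Rs) B →
      uni Rs ⊆ edges n → B ⊆ edges n → Lab m (labP Rs B))
    (zero : ∀ (Rs : List (Finset (Sym2 (Fin n)))) (B : Finset (Sym2 (Fin n))) (e : Sym2 (Fin n)),
      labP Rs B e = 0 ↔ e ∉ uni Rs ∧ e ∉ B)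
    (one : ∀ (Rs : List (Finset (Sym2 (Fin n)))) (B : Finset (Sym2 (Fin n))) (e : Sym2 (Fin n)),
      labP Rs B e = 1 ↔ e ∈ B)
    (gaP : ∀ (Rs : List (Finset (Sym2 (Fin n)))) (B : Finset (Sym2 (Fin n))),
      Rs.Pairwise Disjoint → Disjoint (uni Rs) B → ∀ U : Finset (Sym2 (Fin n)), Disjoint U B →
      (Rs.map (fun R => (1 + ((R ∩ U).card : ℝ)))).prod = (2 : ℝ) ^ ga (labP Rs B) U) :
    ¬ MakerWins n m q true ∅ ∅ := by
  have hm0 : (0 : ℝ) < m := by exact_mod_cast hm
  have hn0 : (0 : ℝ) < n := by exact_mod_cast hn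
  have hw := w0_pos (T := T) hn
  have hTw : 0 ≤ (T : ℝ) * w0 T n := by positivity
  have hnT := nT_le (T := T) hn
  have h1m : (1 : ℝ) ≤ (m : ℝ) + 1 := by linarith
  have h1m' : (0 : ℝ) < (m : ℝ) + 1 := by linarith
  refine inv (Inv m q κ T β) ?_ ?_ ?_
  · -- the first round
    intro R hR hRm
    refine ⟨fun _ => 0, fun _ => le_rfl, ?_, ?_⟩
    · have h1 : PU β [R] ∅ ≤ m + 1 := by
        unfold PU
        have h2 : ∀ U ∈ (Finset.univ : Finset (Finset (Sym2 (Fin n)))),
            (if Disjoint U ∅ then st β [R] U else 0) ≤ β U * (m + 1) := by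
          intro U _
          rw [if_pos (Finset.disjoint_empty_right _)]
          unfold st
          simp only [List.map_cons, List.map_nil, List.prod_cons, List.prod_nil, mul_one]
          refine mul_le_mul_of_nonneg_left ?_ (hβ U)
          have h3 : (R ∩ U).card ≤ m := (Finset.card_le_card Finset.inter_subset_left).trans hRm
          have h4 : ((R ∩ U).card : ℝ) ≤ m := by exact_mod_cast h3
          linarith
        refine (Finset.sum_le_sum h2).trans ?_
        rw [← Finset.sum_mul]
        calc (∑ U, β U) * ((m : ℝ) + 1) ≤ 1 * ((m : ℝ) + 1) :=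
              mul_le_mul_of_nonneg_right hβ1 h1m'.le
          _ = m + 1 := one_mul _
      have h2 : PA q (fun _ : Finset (Fin n) => (0 : ℝ)) ∅ = 0 := by
        unfold PA
        simp
      have h3 : ((free (uni [R]) ∅).card : ℝ) ≤ (n : ℝ) ^ 2 := by
        have : (free (uni [R]) ∅).card ≤ n ^ 2 :=
          (Finset.card_le_card Finset.sdiff_subset).trans edges_card_le
        exact_mod_cast this
      have h4 := mul_le_mul_of_nonneg_right h3 hTw
      rw [h2]
      linarith
    · intro A hA _ hx
      exfalso
      have h1 : (inn A).card ≤ (inn A \ uni [R]).card + (uni [R]).card := by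
        have := Finset.card_le_card (show inn A ⊆ (inn A \ uni [R]) ∪ uni [R] by
          intro e he
          by_cases h : e ∈ uni [R]
          · exact Finset.mem_union_right _ h
          · exact Finset.mem_union_left _ (Finset.mem_sdiff.2 ⟨he, h⟩))
        exact this.trans (Finset.card_union_le _ _)
      rw [card_inn, hA] at h1
      have h2 : (uni [R]).card ≤ m := by simpa using hRm
      omega
  · -- a round
    intro Rs B hI hcard hpw hdisj hRsE hBE _
    obtain ⟨W, hW, h1, h2⟩ := hI
    obtain ⟨S, hS, hSc, hSR⟩ := round (σ := Finset (Sym2 (Fin n)) ⊕ Finset (Fin n))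
      (μ := mu q β Rs W) FS (mu_nonneg hβ Rs hW) B (free (uni Rs) B) hm
    have hphi := Phi_mu (q := q) β Rs W B
    have hSdisj : Disjoint (uni Rs) (B ∪ S) := by
      rw [Finset.disjoint_left]
      intro e he heS
      rcases Finset.mem_union.1 heS with h | h
      · exact (Finset.disjoint_left.1 hdisj he) h
      · have := hS h
        unfold free at this
        rw [Finset.mem_sdiff, Finset.mem_union] at this
        exact this.2 (Or.inl he)
    have hBSE : B ∪ S ⊆ edges n := by
      refine Finset.union_subset hBE fun e he => ?_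
      have := hS he
      unfold free at this
      exact (Finset.mem_sdiff.1 this).1
    refine ⟨S, ⟨hS, hSc⟩, ⟨W, hW, ?_, ?_⟩, ?_⟩
    · have h3 := Phi_anti (μ := mu q β Rs W) FS (mu_nonneg hβ Rs hW)
        (show B ⊆ B ∪ S from Finset.subset_union_left)
      rw [hphi, Phi_mu] at h3
      have h4 : ((free (uni Rs) (B ∪ S)).card : ℝ) ≤ (free (uni Rs) B).card := by
        exact_mod_cast Finset.card_le_card
          (free_anti (Finset.Subset.refl _) Finset.subset_union_left)
      have h5 := mul_le_mul_of_nonneg_right h4 hTw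
      linarith
    · intro A hA hAB hx
      exact h2 A hA (Finset.disjoint_of_subset_right Finset.subset_union_left hAB) hx
    · intro R hR hRm
      have hRf : R ⊆ free (uni Rs) B \ S := by
        intro e he
        have := hR he
        unfold free at this ⊢
        simp only [Finset.mem_sdiff, Finset.mem_union] at this ⊢
        tauto
      have h3 := hSR R hRf hRm
      rw [hphi] at h3
      have hRdisj : Disjoint R (uni Rs) := by
        rw [Finset.disjoint_left]
        intro e he heS
        have := hR he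
        unfold free at this
        rw [Finset.mem_sdiff, Finset.mem_union] at this
        exact this.2 (Or.inl heS)
      have hRE : R ⊆ edges n := by
        intro e he
        have := hR he
        unfold free at this
        exact (Finset.mem_sdiff.1 this).1
      have hRB : Disjoint R (B ∪ S) := by
        rw [Finset.disjoint_left]
        intro e he heS
        have := hR he
        unfold free at this
        rw [Finset.mem_sdiff, Finset.mem_union] at this
        exact this.2 (Or.inr heS)
      -- the position after the round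
      have hc' : ∀ R' ∈ R :: Rs, R'.card ≤ m := by
        intro R' hR'
        rcases List.mem_cons.1 hR' with rfl | h
        · exact hRm
        · exact hcard R' h
      have hp' : (R :: Rs).Pairwise Disjoint :=
        List.pairwise_cons.2 ⟨fun R' hR' => by
          rw [Finset.disjoint_left]
          intro e he heR
          exact (Finset.disjoint_left.1 hRdisj he) (mem_uni.2 ⟨R', hR', heR⟩), hpw⟩
      have hd' : Disjoint (uni (R :: Rs)) (B ∪ S) := by
        rw [uni_cons]
        exact Finset.disjoint_union_left.2 ⟨hRB, hSdisj⟩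
      have he' : uni (R :: Rs) ⊆ edges n := by
        rw [uni_cons]
        exact Finset.union_subset hRE hRsE
      -- the splitting of the potential
      have h4 : Phi (fun s => mu q β Rs W s * (1 + ((R ∩ FS s).card : ℝ))) FS (B ∪ S) =
          PU β (R :: Rs) (B ∪ S) +
            PA q (fun A => W A * (1 + ((R ∩ inn A).card : ℝ))) (B ∪ S) := by
        unfold Phi PU PA
        rw [Fintype.sum_sum_type]
        congr 1
        · refine Finset.sum_congr rfl fun U _ => ?_
          rw [st_cons]
          rfl
        · refine Finset.sum_congr rfl fun A _ => ?_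
          change (if Disjoint (inn A) (B ∪ S) then
            (if A.card = q then W A else 0) * (1 + ((R ∩ inn A).card : ℝ)) else 0) = _
          by_cases ha : Disjoint (inn A) (B ∪ S)
          · by_cases hb : A.card = q
            · rw [if_pos ha, if_pos ha, if_pos hb, if_pos hb]
            · rw [if_pos ha, if_pos ha, if_neg hb, if_neg hb, zero_mul]
          · rw [if_neg ha, if_neg ha]
      rw [h4] at h3
      -- the new sets
      set N : Finset (Finset (Fin n)) := Finset.univ.filter fun A => A.card = q ∧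
        Disjoint (inn A) (B ∪ S) ∧ (inn A \ uni (R :: Rs)).card ≤ κ ∧
          κ < (inn A \ uni Rs).card with hN
      have hPA0 : 0 ≤ PA q (fun A => W A * (1 + ((R ∩ inn A).card : ℝ))) (B ∪ S) :=
        PA_nonneg (fun A => mul_nonneg (hW A) (by positivity)) _
      have hNT : N.card ≤ T := by
        refine le_trans (Finset.card_le_card ?_)
          (hmain (labP (R :: Rs) (B ∪ S)) (lab _ _ hc' hp' hd' he' hBSE) ?_)
        · intro A hA
          rw [hN, Finset.mem_filter] at hA
          obtain ⟨_, hA1, hA2, hA3, _⟩ := hA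
          unfold near
          rw [Finset.mem_filter]
          refine ⟨Finset.mem_univ _, hA1, ?_, ?_⟩
          · intro e he h
            rw [one] at h
            exact (Finset.disjoint_left.1 hA2 he) h
          · refine le_trans (Finset.card_le_card ?_) hA3
            intro e he
            rw [Finset.mem_filter, zero] at he
            exact Finset.mem_sdiff.2 ⟨he.1, he.2.1⟩
        · have h5 : val β (labP (R :: Rs) (B ∪ S)) = PU β (R :: Rs) (B ∪ S) := by
            unfold val PU
            refine Finset.sum_congr rfl fun U _ => ?_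
            by_cases hU : Disjoint U (B ∪ S)
            · rw [if_pos hU, if_pos, st, gaP _ _ hp' hd' U hU]
              intro e he h
              rw [one] at h
              exact (Finset.disjoint_left.1 hU he) h
            · rw [if_neg hU, if_neg]
              intro h
              apply hU
              rw [Finset.disjoint_left]
              intro e he heB
              exact h e he ((one _ _ e).2 heB)
          rw [h5]
          have h6 : 0 ≤ ((free (uni Rs) B).card : ℝ) * (T * w0 T n) := by positivity
          linarith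
      set W' : Finset (Fin n) → ℝ := fun A =>
        W A * (1 + ((R ∩ inn A).card : ℝ)) + (if A ∈ N then w0 T n else 0) with hW'
      refine ⟨W', fun A => ?_, ?_, ?_⟩
      · rw [hW']
        have := hW A
        refine add_nonneg (mul_nonneg (hW A) (by positivity)) ?_
        split_ifs
        · exact hw.le
        · exact le_rfl
      · -- the mass
        have h5 : PA q W' (B ∪ S) ≤
            PA q (fun A => W A * (1 + ((R ∩ inn A).card : ℝ))) (B ∪ S) + N.card * w0 T n := by
          have h6 : (N.card : ℝ) * w0 T n = ∑ A : Finset (Fin n), if A ∈ N then w0 T n else 0 := by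
            rw [← Finset.sum_filter, Finset.sum_const, nsmul_eq_mul]
            congr 2
            congr 1
            ext A
            simp
          rw [h6]
          unfold PA
          rw [← Finset.sum_add_distrib]
          refine Finset.sum_le_sum fun A _ => ?_
          rw [hW']
          have h7 : (0 : ℝ) ≤ if A ∈ N then w0 T n else 0 := by
            split_ifs
            · exact hw.le
            · exact le_rfl
          by_cases ha : Disjoint (inn A) (B ∪ S)
          · by_cases hb : A.card = q
            · simp only [if_pos ha, if_pos hb, le_refl]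
            · simp only [if_pos ha, if_neg hb, zero_add, h7]
          · simp only [if_neg ha, zero_add, h7]
        rcases R.eq_empty_or_nonempty with hR0 | hRne
        · have hN0 : N = ∅ := by
            rw [hN, Finset.filter_eq_empty_iff]
            rintro A _ ⟨_, _, ha, hb⟩
            rw [hR0, uni_cons, Finset.empty_union] at ha
            omega
          rw [hN0, Finset.card_empty, Nat.cast_zero, zero_mul, add_zero] at h5
          have h6 : ((free (uni (R :: Rs)) (B ∪ S)).card : ℝ) ≤ (free (uni Rs) B).card := by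
            refine Nat.cast_le.2 (Finset.card_le_card (free_anti ?_ Finset.subset_union_left))
            rw [uni_cons]
            exact Finset.subset_union_right
          have h7 := mul_le_mul_of_nonneg_right h6 hTw
          linarith
        · have h6 : (free (uni (R :: Rs)) (B ∪ S)).card + 1 ≤ (free (uni Rs) B).card := by
            obtain ⟨e, he⟩ := hRne
            refine Finset.card_lt_card ?_
            rw [Finset.ssubset_iff_of_subset (free_anti (by rw [uni_cons]; exact Finset.subset_union_right)
              Finset.subset_union_left)]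
            refine ⟨e, (Finset.mem_sdiff.1 (hRf he)).1, ?_⟩
            unfold free
            rw [uni_cons]
            simp [he]
          have h7 : ((free (uni (R :: Rs)) (B ∪ S)).card : ℝ) + 1 ≤ (free (uni Rs) B).card := by
            exact_mod_cast h6
          have h8 := mul_le_mul_of_nonneg_right h7 hTw
          have h9 : (N.card : ℝ) * w0 T n ≤ T * w0 T n :=
            mul_le_mul_of_nonneg_right (by exact_mod_cast hNT) hw.le
          linarith
      · -- the weights
        intro A hA hAB hx
        have hx1 : (inn A \ uni Rs).card = (inn A \ uni (R :: Rs)).card + (R ∩ inn A).card := by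
          have h5 : inn A \ uni Rs = (inn A \ uni (R :: Rs)) ∪ (R ∩ inn A) := by
            ext e
            simp only [uni_cons, Finset.mem_sdiff, Finset.mem_union, Finset.mem_inter]
            constructor
            · rintro ⟨ha, hb⟩
              by_cases hc : e ∈ R
              · exact Or.inr ⟨hc, ha⟩
              · exact Or.inl ⟨ha, by tauto⟩
            · rintro (⟨ha, hb⟩ | ⟨ha, hb⟩)
              · exact ⟨ha, fun h => hb (Or.inr h)⟩
              · exact ⟨hb, fun h => Finset.disjoint_left.1 hRdisj ha h⟩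
          rw [h5, Finset.card_union_of_disjoint]
          rw [Finset.disjoint_left]
          intro e he he'
          rw [uni_cons, Finset.mem_sdiff, Finset.mem_union] at he
          exact he.2 (Or.inl (Finset.mem_inter.1 he').1)
        have hh : (R ∩ inn A).card ≤ m :=
          (Finset.card_le_card Finset.inter_subset_left).trans hRm
        have hWA := hW A
        change _ ≤ W A * (1 + ((R ∩ inn A).card : ℝ)) + (if A ∈ N then w0 T n else 0)
        by_cases hold : (inn A \ uni Rs).card ≤ κ
        · have h5 := h2 A hA (Finset.disjoint_of_subset_right Finset.subset_union_left hAB) hold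
          have h6 : (0 : ℝ) ≤ if A ∈ N then w0 T n else 0 := by
            split_ifs
            · exact hw.le
            · exact le_rfl
          refine le_trans ?_ (le_add_of_nonneg_right h6)
          have h7 := rpow_le hm hh
          have h8 : ((κ : ℝ) - m - ((inn A \ uni (R :: Rs)).card : ℝ)) / m =
              ((κ : ℝ) - m - ((inn A \ uni Rs).card : ℝ)) / m + ((R ∩ inn A).card : ℝ) / m := by
            rw [hx1]
            push_cast
            ring
          rw [h8, Real.rpow_add h1m', ← mul_assoc]
          exact mul_le_mul h5 h7 (by positivity) hWA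
        · have hAN : A ∈ N := by
            rw [hN, Finset.mem_filter]
            exact ⟨Finset.mem_univ _, hA, hAB, hx, not_le.1 hold⟩
          rw [if_pos hAN]
          have h5 : ((m : ℝ) + 1) ^ (((κ : ℝ) - m - ((inn A \ uni (R :: Rs)).card : ℝ)) / m) ≤ 1 := by
            refine Real.rpow_le_one_of_one_le_of_nonpos h1m ?_
            refine div_nonpos_of_nonpos_of_nonneg ?_ hm0.le
            have h6 : κ ≤ m + (inn A \ uni (R :: Rs)).card := by omega
            have h7 : (κ : ℝ) ≤ m + ((inn A \ uni (R :: Rs)).card : ℝ) := by exact_mod_cast h6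
            linarith
          have h6 : 0 ≤ W A * (1 + ((R ∩ inn A).card : ℝ)) := mul_nonneg hWA (by positivity)
          have h7 := mul_le_mul_of_nonneg_left h5 hw.le
          linarith
  · -- the end
    intro Rs B hI _ _ hdisj _ _ hcl
    obtain ⟨W, hW, h1, h2⟩ := hI
    obtain ⟨A, hA, hA'⟩ := hcl
    have hsub : inn A ⊆ uni Rs := by
      intro e he
      rw [mem_inn] at he
      induction e with
      | _ a b =>
        rw [Sym2.mk_isDiag_iff] at he
        exact hA' a (he.2 a (Sym2.mem_mk_left a b)) b (he.2 b (Sym2.mem_mk_right a b)) he.1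
    have hd : Disjoint (inn A) B := Finset.disjoint_of_subset_left hsub hdisj
    have h0 : (inn A \ uni Rs).card = 0 := by
      rw [Finset.card_eq_zero, Finset.sdiff_eq_empty_iff_subset]
      exact hsub
    have h3 := h2 A hA hd (by omega)
    rw [h0, Nat.cast_zero, sub_zero] at h3
    have h4 : W A ≤ PA q W B := by
      unfold PA
      refine le_trans ?_ (Finset.single_le_sum (f := fun A => if Disjoint (inn A) B then
        (if A.card = q then W A else 0) else 0) (fun A _ => ?_) (Finset.mem_univ A))
      · simp only [if_pos hd, if_pos hA, le_refl]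
      · split_ifs
        · exact hW _
        · exact le_rfl
        · exact le_rfl
    have h5 := PU_nonneg hβ Rs B
    have h6 : 0 ≤ ((free (uni Rs) B).card : ℝ) * (T * w0 T n) := by positivity
    have h7 := mul_lt_mul_of_pos_left hbig hw
    have h8 : w0 T n * (((m : ℝ) + 3) * ((T : ℝ) + 1) * (n : ℝ) ^ 2) = m + 3 := by
      unfold w0
      field_simp
    linarith

/-- Module G3: Breaker's greedy strategy with entry bets. -/
theorem entry (hm : 1 ≤ m) (hn : 1 ≤ n) {κ T : ℕ} (β : Finset (Sym2 (Fin n)) → ℝ)
    (hβ : ∀ U, 0 ≤ β U) (hβ1 : ∑ U, β U ≤ 1)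
    (hmain : ∀ ℓ : Sym2 (Fin n) → ℕ, Lab m ℓ → val β ℓ ≤ m + 3 → (near ℓ q κ).card ≤ T)
    (hk : κ + m < q.choose 2)
    (hbig : ((m : ℝ) + 3) * ((T : ℝ) + 1) * (n : ℝ) ^ 2 <
      ((m : ℝ) + 1) ^ (((κ : ℝ) - m) / m)) :
    ¬ MakerWins n m q true ∅ ∅ :=
  entry_of hm hn β hβ hβ1 hmain hk hbig
    (fun Inv h1 h2 h3 => breaker_wins_inv hm Inv h1 h2 h3)
    (fun _ _ h1 h2 h3 h4 h5 => labP_lab h1 h2 h3 h4 h5)
    (fun _ _ e => labP_zero e) (fun _ _ e => labP_one e)
    (fun _ _ h2 h3 U hU => labP_ga h2 h3 U hU)

end Pool.Agent.Helper65.CG
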